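import Mathlib
import Pool.Agent.Q265.MultiVal

/-! # The number of distinct multinomial coefficients: `log M(n) = o(√n)` -/

set_option autoImplicit false

namespace Pool.Agent.Results.MP_155ab0_nt.LogCountLimitZero

open Finset Filter Topology Pool.Agent.Q265.PartCount Pool.Agent.Q265.MultiVal

/-- the integers that occur as a multinomial coefficient `n! / (i_1! ⋯ i_k!)` with
`i_1 + ⋯ + i_k = n`, for some `k ≥ 1` -/
def coeffs (n : ℕ) : Set ℕ :=
  {m | ∃ k : ℕ, 1 ≤ k ∧ ∃ i : Fin k → ℕ, ∑ j, i j = n ∧ m = Nat.multinomial Finset.univ i}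

/-- the number of distinct multinomial coefficients with upper entry `n` -/
noncomputable def M (n : ℕ) : ℕ := (coeffs n).ncard

theorem coeffs_subset (n : ℕ) : coeffs n ⊆
    ((((univ : Finset n.Partition).image (fun p => (p.parts.map Nat.factorial).prod)).image
      (fun v => n.factorial / v) : Finset ℕ) : Set ℕ) := by
  rintro m ⟨k, _, i, hi, rfl⟩
  rw [Finset.mem_coe, mem_image]
  refine ⟨∏ j, (i j).factorial, ?_, ?_⟩
  · rw [mem_image]
    refine ⟨Nat.Partition.ofSums n (univ.val.map i) hi, mem_univ _, ?_⟩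
    have h1 : (Nat.Partition.ofSums n (univ.val.map i) hi).parts =
        (univ.val.map i).filter (fun x => x ≠ 0) := rfl
    rw [h1]
    have h2 : ∀ s : Multiset ℕ, ((s.filter (fun x => x ≠ 0)).map Nat.factorial).prod =
        (s.map Nat.factorial).prod := by
      intro s
      induction s using Multiset.induction with
      | empty => simp
      | cons a s ih =>
        by_cases h : a ≠ 0
        · rw [Multiset.filter_cons_of_pos (p := fun x : ℕ => x ≠ 0) _ h, Multiset.map_cons,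
            Multiset.prod_cons, ih, Multiset.map_cons, Multiset.prod_cons]
        · rw [Multiset.filter_cons_of_neg (p := fun x : ℕ => x ≠ 0) _ h, ih, Multiset.map_cons,
            Multiset.prod_cons]
          rw [ne_eq, not_not] at h
          rw [h]
          simp
    rw [h2, Multiset.map_map]
    rfl
  · unfold Nat.multinomial
    rw [hi]

theorem coeffs_finite (n : ℕ) : (coeffs n).Finite := (Finset.finite_toSet _).subset (coeffs_subset n)

theorem M_le (n : ℕ) : M n ≤ cnt n := by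
  unfold M
  have h1 := Set.ncard_le_ncard (coeffs_subset n) (Finset.finite_toSet _)
  rw [Set.ncard_coe_finset] at h1
  exact h1.trans Finset.card_image_le

theorem M_pos (n : ℕ) : 0 < M n := by
  unfold M
  rw [Set.ncard_pos (coeffs_finite n)]
  exact ⟨_, 1, le_rfl, fun _ => n, by simp, rfl⟩

/-! ### Prime counting -/

theorem pi_bound : ∀ᶠ x : ℝ in atTop, (Nat.primeCounting ⌊x⌋₊ : ℝ) ≤ 2 * x / Real.log x := by
  have h4 : Real.log 4 < 2 := by
    have h1 : Real.log 4 = 2 * Real.log 2 := by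
      rw [show (4 : ℝ) = 2 ^ 2 by norm_num, Real.log_pow]; norm_num
    have := Real.log_two_lt_d9
    rw [h1]; linarith
  have h := Chebyshev.eventually_primeCounting_le (ε := 2 - Real.log 4) (by linarith)
  filter_upwards [h] with x hx
  calc (Nat.primeCounting ⌊x⌋₊ : ℝ) ≤ (Real.log 4 + (2 - Real.log 4)) * x / Real.log x := hx
    _ = 2 * x / Real.log x := by ring_nf

theorem tends_sqrt : Tendsto (fun n : ℕ => Real.sqrt n) atTop atTop :=
  Real.tendsto_sqrt_atTop.comp tendsto_natCast_atTop_atTop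

/-- the main estimate -/
theorem main_bound (k : ℕ) (hk : 1 ≤ k) : ∀ᶠ n : ℕ in atTop,
    Real.log (M n) ≤ 14 / k * Real.sqrt n := by
  have hk0 : (1 : ℝ) ≤ k := by exact_mod_cast hk
  have hkpos : (0 : ℝ) < k := by linarith
  -- eventual facts in `r = √n`
  have ev : ∀ᶠ r : ℝ in atTop,
      (Nat.primeCounting ⌊r / k⌋₊ : ℝ) ≤ 2 * (r / k) / Real.log (r / k) ∧
      (Nat.primeCounting ⌊2 * k ^ 2 * r⌋₊ : ℝ) ≤ 2 * (2 * k ^ 2 * r) / Real.log (2 * k ^ 2 * r) ∧
      r ^ 2 + 1 ≤ (r / k) ^ 3 ∧ 1 ≤ Real.log (r / k) ∧ 2 * (k : ℝ) ≤ r ∧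
      2 * (k : ℝ) ^ 2 * k + k ≤ r ∧ 2 * k ^ 2 * r + k ^ 2 < (r / k) * (r / k) ∧ 2 ≤ r ∧
      1 ≤ Real.log r ∧
      4 * (k : ℝ) ^ 3 * Real.log (2 * Real.log r) ≤ Real.log r ∧
      (2 * (k : ℝ) ^ 2 + 4 * k ^ 3) * k ≤ 2 * Real.log r := by
    have t1 : Tendsto (fun r : ℝ => r / k) atTop atTop := tendsto_id.atTop_div_const hkpos
    have t2 : Tendsto (fun r : ℝ => 2 * (k : ℝ) ^ 2 * r) atTop atTop :=
      tendsto_id.const_mul_atTop (by positivity)
    have e3 : ∀ᶠ r : ℝ in atTop, r ^ 2 + 1 ≤ (r / k) ^ 3 := by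
      filter_upwards [eventually_ge_atTop (2 * (k : ℝ) ^ 3), eventually_ge_atTop (1 : ℝ)] with r hr hr1
      rw [div_pow, le_div_iff₀ (by positivity)]
      have h1 : 2 * (k : ℝ) ^ 3 * r ^ 2 ≤ r * r ^ 2 := mul_le_mul_of_nonneg_right hr (by positivity)
      have h2 : (k : ℝ) ^ 3 * 1 ≤ (k : ℝ) ^ 3 * r ^ 2 :=
        mul_le_mul_of_nonneg_left (by nlinarith) (by positivity)
      nlinarith
    have e4 : ∀ᶠ r : ℝ in atTop, 2 * k ^ 2 * r + k ^ 2 < (r / k) * (r / k) := by
      filter_upwards [eventually_gt_atTop (3 * (k : ℝ) ^ 4), eventually_ge_atTop (1 : ℝ)] with r hr hr1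
      rw [div_mul_div_comm, lt_div_iff₀ (by positivity)]
      have h1 : 3 * (k : ℝ) ^ 4 * r < r * r := mul_lt_mul_of_pos_right hr (by linarith)
      have h2 : (k : ℝ) ^ 4 * 1 ≤ (k : ℝ) ^ 4 * r := mul_le_mul_of_nonneg_left hr1 (by positivity)
      nlinarith
    have tl : Tendsto Real.log atTop atTop := Real.tendsto_log_atTop
    have e5 : ∀ᶠ r : ℝ in atTop, 4 * (k : ℝ) ^ 3 * Real.log (2 * Real.log r) ≤ Real.log r := by
      have h1 := Real.isLittleO_log_id_atTop.bound (c := 1 / (8 * (k : ℝ) ^ 3)) (by positivity)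
      have t3 : Tendsto (fun r : ℝ => 2 * Real.log r) atTop atTop := tl.const_mul_atTop (by norm_num)
      filter_upwards [t3.eventually h1, tl.eventually_ge_atTop 1] with r hr hr1
      rw [Real.norm_eq_abs, Real.norm_eq_abs, id] at hr
      rw [abs_of_nonneg (by linarith : (0 : ℝ) ≤ 2 * Real.log r)] at hr
      have h2 := (le_abs_self _).trans hr
      calc 4 * (k : ℝ) ^ 3 * Real.log (2 * Real.log r) ≤
          4 * (k : ℝ) ^ 3 * (1 / (8 * (k : ℝ) ^ 3) * (2 * Real.log r)) :=
            mul_le_mul_of_nonneg_left h2 (by positivity)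
        _ = Real.log r := by field_simp; ring
    filter_upwards [t1.eventually pi_bound, t2.eventually pi_bound, e3,
      (tl.comp t1).eventually_ge_atTop 1, eventually_ge_atTop (2 * (k : ℝ)),
      eventually_ge_atTop (2 * (k : ℝ) ^ 2 * k + k), e4, eventually_ge_atTop (2 : ℝ),
      tl.eventually_ge_atTop 1, e5,
      tl.eventually_ge_atTop ((2 * (k : ℝ) ^ 2 + 4 * k ^ 3) * k / 2)] with
      r g1 g2 g3 g4 g5 g6 g7 g8 g9 g10 g11
    exact ⟨g1, g2, g3, g4, g5, g6, g7, g8, g9, g10, by linarith⟩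
  filter_upwards [tends_sqrt.eventually ev, eventually_ge_atTop 1] with n hn hn1
  have hn0 : (0 : ℝ) < n := by exact_mod_cast hn1
  set r : ℝ := Real.sqrt n with hr
  have hrr : r * r = n := Real.mul_self_sqrt hn0.le
  obtain ⟨g1, g2, g3, g4, g5, g6, g7, g8, g9, g10, g11⟩ := hn
  have hr0 : 0 < r := by linarith
  have hlogn : Real.log n = 2 * Real.log r := by
    rw [← hrr, Real.log_mul hr0.ne' hr0.ne']; ring
  set a : ℕ := ⌊r / k⌋₊ with ha
  set b : ℕ := ⌊2 * (k : ℝ) ^ 2 * r⌋₊ with hb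
  set L : ℕ := k ^ 2 with hL
  have hLR : (L : ℝ) = (k : ℝ) ^ 2 := by rw [hL]; push_cast; ring
  have ha1 : (a : ℝ) ≤ r / k := Nat.floor_le (by positivity)
  have ha2 : r / k < a + 1 := Nat.lt_floor_add_one _
  have hb1 : (b : ℝ) ≤ 2 * (k : ℝ) ^ 2 * r := Nat.floor_le (by positivity)
  have hb2 : 2 * (k : ℝ) ^ 2 * r < b + 1 := Nat.lt_floor_add_one _
  have hrk : 2 ≤ r / k := by rw [le_div_iff₀ hkpos]; linarith
  have hak : 1 ≤ a := by
    rw [ha]
    apply Nat.le_floor
    push_cast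
    linarith
  have ha3 : r / (2 * k) ≤ a := by
    have h1 : r / (2 * k) = (r / k) / 2 := by field_simp
    rw [h1]
    linarith
  have hL1 : 1 ≤ L := Nat.one_le_pow _ _ (by omega)
  have h2L : 2 * L ≤ a := by
    have h1 : 2 * (k : ℝ) ^ 2 + 1 ≤ r / k := by rw [le_div_iff₀ hkpos]; nlinarith
    have h2 : ((2 * L : ℕ) : ℝ) < a + 1 := by push_cast; rw [hLR]; linarith
    have h3 : 2 * L < a + 1 := by exact_mod_cast h2
    omega
  have han : a ≤ n := by
    have h1 : r / k ≤ r := div_le_self hr0.le hk0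
    have h2 : (a : ℝ) ≤ n := by nlinarith
    exact_mod_cast h2
  have hbL : b + L < (a + 1) * (a + 1) := by
    have h1 : (r / k) * (r / k) ≤ ((a : ℝ) + 1) * (a + 1) :=
      mul_le_mul ha2.le ha2.le (by positivity) (by positivity)
    have h2 : ((b + L : ℕ) : ℝ) < (((a + 1) * (a + 1) : ℕ) : ℝ) := by
      push_cast; rw [hLR]; linarith
    exact_mod_cast h2
  have hb0 : 0 < b := by
    rw [hb]
    apply Nat.floor_pos.2
    nlinarith
  set A : ℝ := 2 * Real.log r with hA
  have hA1 : 1 ≤ A := by linarith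
  have hA0 : 0 < A := by linarith
  have key := cnt_le n a b L hL1 h2L han hbL A hA1
  have hM0 : (0 : ℝ) < M n := by exact_mod_cast M_pos n
  have hMc : (M n : ℝ) ≤ cnt n := by exact_mod_cast M_le n
  have hposB : 0 < (MF n (Ioc b n) n).card :=
    Finset.card_pos.2 ⟨fun _ => 0, mem_MF (by simp) _ (fun _ _ => rfl) (by simp)⟩
  have hposC : 0 < (MF n (JC n b L) (n / L)).card :=
    Finset.card_pos.2 ⟨fun _ => 0, mem_MF (by simp [JC]) _ (fun _ _ => rfl) (by simp)⟩
  have hBR : (0 : ℝ) < ((MF n (Ioc b n) n).card : ℝ) := by exact_mod_cast hposB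
  have hCR : (0 : ℝ) < ((MF n (JC n b L) (n / L)).card : ℝ) := by exact_mod_cast hposC
  have hlog := Real.log_le_log hM0 (hMc.trans key)
  rw [Real.log_mul (by positivity) (by positivity), Real.log_mul (by positivity) (by positivity),
    Real.log_mul (by positivity) (by positivity), Real.log_pow, Real.log_exp] at hlog
  -- first term
  have hlk0 : 0 < Real.log (r / k) := by linarith
  have T1 : (Nat.primeCounting a : ℝ) * Real.log ((n : ℝ) + 1) ≤ 6 * (r / k) := by
    have h1 : Real.log ((n : ℝ) + 1) ≤ 3 * Real.log (r / k) := by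
      have h2 : Real.log ((n : ℝ) + 1) ≤ Real.log ((r / k) ^ 3) := by
        apply Real.log_le_log (by positivity)
        rw [← hrr]
        nlinarith
      rw [Real.log_pow] at h2
      exact_mod_cast h2
    calc (Nat.primeCounting a : ℝ) * Real.log ((n : ℝ) + 1)
        ≤ (2 * (r / k) / Real.log (r / k)) * (3 * Real.log (r / k)) :=
          mul_le_mul g1 h1 (Real.log_nonneg (by linarith)) (by positivity)
      _ = 6 * (r / k) := by field_simp; ring
  -- second term
  have T2 : Real.log ((MF n (Ioc b n) n).card : ℝ) ≤ 3 * (r / k) := by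
    have ht : 0 < 1 / ((k : ℝ) * r) := by positivity
    have h1 := log_card_tail n b n (1 / ((k : ℝ) * r)) ht hb0 hposB
    have h2 : (k : ℝ) ≤ 1 / ((k : ℝ) * r) * b := by
      rw [div_mul_eq_mul_div, one_mul, le_div_iff₀ (by positivity)]
      nlinarith
    have h3 : 1 + (k : ℝ) ^ 2 / 2 ≤ Real.exp (1 / ((k : ℝ) * r) * b) := by
      have h4 : Real.exp k ≤ Real.exp (1 / ((k : ℝ) * r) * b) := Real.exp_le_exp.2 h2
      have h5 := Real.quadratic_le_exp_of_nonneg hkpos.le
      linarith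
    set E : ℝ := Real.exp (1 / ((k : ℝ) * r) * b) with hE
    have hE1 : 1 < E := by
      have : (0 : ℝ) < (k : ℝ) ^ 2 / 2 := by positivity
      linarith
    have h6 : Real.exp (-(1 / ((k : ℝ) * r) * b)) / (1 - Real.exp (-(1 / ((k : ℝ) * r) * b))) =
        1 / (E - 1) := by
      rw [Real.exp_neg, ← hE]
      have : E - 1 ≠ 0 := by linarith
      have hE0 : E ≠ 0 := by linarith
      have : 1 - E⁻¹ ≠ 0 := by
        rw [sub_ne_zero]
        intro h
        have := congrArg (fun x => x * E) h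
        simp only [one_mul, inv_mul_cancel₀ hE0] at this
        linarith
      field_simp
    rw [h6] at h1
    have h7 : 1 / (E - 1) ≤ 2 / (k : ℝ) ^ 2 := by
      rw [div_le_div_iff₀ (by linarith) (by positivity)]
      linarith
    have h8 : 1 / (E - 1) * (1 / (1 / ((k : ℝ) * r))) ≤ 2 * (r / k) := by
      calc 1 / (E - 1) * (1 / (1 / ((k : ℝ) * r))) ≤ 2 / (k : ℝ) ^ 2 * (1 / (1 / ((k : ℝ) * r))) :=
            mul_le_mul_of_nonneg_right h7 (by positivity)
        _ = 2 * (r / k) := by field_simp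
    have h9 : (n : ℝ) * (1 / ((k : ℝ) * r)) = r / k := by
      rw [← hrr]; field_simp
    linarith
  -- third term
  have T3 : Real.log ((MF n (JC n b L) (n / L)).card : ℝ) ≤ 3 * (r / k) := by
    have ht : 0 < (k : ℝ) / r := by positivity
    have h1 := log_card_full n (JC n b L) (n / L) (by simp [JC]) ((k : ℝ) / r) ht hposC
    have h2 : ((n / L : ℕ) : ℝ) ≤ (n : ℝ) / L := Nat.cast_div_le
    have h3 : ((n / L : ℕ) : ℝ) * ((k : ℝ) / r) ≤ (n : ℝ) / L * ((k : ℝ) / r) :=
      mul_le_mul_of_nonneg_right h2 ht.le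
    have h4 : (n : ℝ) / L * ((k : ℝ) / r) = r / k := by
      rw [hLR, ← hrr]; field_simp
    have h5 : 2 / ((k : ℝ) / r) = 2 * (r / k) := by field_simp
    linarith
  -- fourth term
  have T4 : (Nat.primeCounting b : ℝ) * Real.log A ≤ r / k := by
    have hl1 : Real.log r ≤ Real.log (2 * (k : ℝ) ^ 2 * r) := by
      apply Real.log_le_log hr0
      have hk2 : (1 : ℝ) ≤ (k : ℝ) ^ 2 := one_le_pow₀ hk0
      have h3 : 1 * r ≤ (k : ℝ) ^ 2 * r := mul_le_mul_of_nonneg_right hk2 hr0.le
      linarith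
    have h1 : (Nat.primeCounting b : ℝ) ≤ 2 * (2 * (k : ℝ) ^ 2 * r) / Real.log r :=
      g2.trans (div_le_div_of_nonneg_left (by positivity) (by linarith) hl1)
    calc (Nat.primeCounting b : ℝ) * Real.log A ≤
        2 * (2 * (k : ℝ) ^ 2 * r) / Real.log r * Real.log A :=
          mul_le_mul_of_nonneg_right h1 (Real.log_nonneg hA1)
      _ = (4 * (k : ℝ) ^ 3 * Real.log A) * ((r / k) / Real.log r) := by field_simp; ring
      _ ≤ Real.log r * ((r / k) / Real.log r) := mul_le_mul_of_nonneg_right g10 (by positivity)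
      _ = r / k := by field_simp
  -- fifth term
  have T5 : ((Nat.primeCounting b : ℝ) + 2 * L * n / a) / A ≤ r / k := by
    have h1 : (Nat.primeCounting b : ℝ) ≤ 2 * (k : ℝ) ^ 2 * r := by
      have h2 : Nat.primeCounting b ≤ b := by
        rw [← Nat.primesLE_card_eq_primeCounting]
        have h3 : Nat.primesLE b ⊆ Icc 1 b := by
          intro p hp
          rw [Nat.mem_primesLE] at hp
          rw [mem_Icc]
          exact ⟨hp.2.one_lt.le, hp.1⟩
        have h4 := Finset.card_le_card h3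
        rw [Nat.card_Icc] at h4
        omega
      have h3 : (Nat.primeCounting b : ℝ) ≤ b := by exact_mod_cast h2
      linarith
    have haR : (0 : ℝ) < a := by exact_mod_cast hak
    have h2 : 2 * (L : ℝ) * n / a ≤ 4 * (k : ℝ) ^ 3 * r := by
      rw [div_le_iff₀ haR, hLR, ← hrr]
      have h3 : 4 * (k : ℝ) ^ 3 * r * (r / (2 * k)) ≤ 4 * (k : ℝ) ^ 3 * r * a :=
        mul_le_mul_of_nonneg_left ha3 (by positivity)
      have h4 : 4 * (k : ℝ) ^ 3 * r * (r / (2 * k)) = 2 * (k : ℝ) ^ 2 * (r * r) := by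
        field_simp; ring
      linarith
    rw [div_le_iff₀ hA0]
    have h5 : r / k * ((2 * (k : ℝ) ^ 2 + 4 * k ^ 3) * k) ≤ r / k * A :=
      mul_le_mul_of_nonneg_left g11 (by positivity)
    have h6 : r / k * ((2 * (k : ℝ) ^ 2 + 4 * k ^ 3) * k) = 2 * (k : ℝ) ^ 2 * r + 4 * (k : ℝ) ^ 3 * r := by
      field_simp
    linarith
  have hfin : 14 / (k : ℝ) * r = 14 * (r / k) := by ring
  rw [hfin]
  linarith

/-- `log M(n) / √n` converges to `0` -/
theorem result : Tendsto (fun n : ℕ => Real.log (M n) / Real.sqrt n) atTop (𝓝 0) := by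
  rw [Metric.tendsto_atTop]
  intro ε hε
  obtain ⟨k, hk⟩ := exists_nat_gt (14 / ε)
  have hk1 : 1 ≤ k := by
    rcases Nat.eq_zero_or_pos k with h0 | h0
    · rw [h0] at hk
      have : 0 < 14 / ε := by positivity
      push_cast at hk
      linarith
    · exact h0
  have hkpos : (0 : ℝ) < k := by exact_mod_cast hk1
  obtain ⟨N, hN⟩ := eventually_atTop.1 (main_bound k hk1)
  refine ⟨max N 1, fun n hn => ?_⟩
  have h1 := hN n (le_trans (le_max_left _ _) hn)
  have hn1 : 1 ≤ n := le_trans (le_max_right _ _) hn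
  have hs : 0 < Real.sqrt n := Real.sqrt_pos.2 (by exact_mod_cast hn1)
  have hM : (1 : ℝ) ≤ M n := by exact_mod_cast M_pos n
  have hlog : 0 ≤ Real.log (M n) := Real.log_nonneg hM
  rw [Real.dist_eq, sub_zero, abs_of_nonneg (by positivity), div_lt_iff₀ hs]
  have h2 : 14 / (k : ℝ) < ε := by
    rw [div_lt_iff₀ hε] at hk
    rw [div_lt_iff₀ hkpos]
    linarith
  exact h1.trans_lt (mul_lt_mul_of_pos_right h2 hs)

end Pool.Agent.Results.MP_155ab0_nt.LogCountLimitZero
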